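import Pool.Agent.Helper64.DT.Stmts

/-! Diamond-free circle graphs (MP_866009_co): no odd signed triangle at a vertex. -/

set_option autoImplicit false

namespace Pool.Agent.Helper64.DT

open Pool.Agent.Helper64.CT
open Pool.Agent.Helper64.HG (Ovl Model Circ IC HellyCircle ChordModel)

variable {V : Type}

theorem cy3_symm {G : SimpleGraph V} {Dt : Set V → V → V → Bool} {x u v : V} {b : Bool}
    (h : Es G Dt x u v b) : Es G Dt x v u b := by
  obtain ⟨hu, hv, h⟩ := h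
  refine ⟨hv, hu, ?_⟩
  rcases h with ⟨h, hb⟩ | ⟨h, hb⟩ | ⟨Q, h1, h2, h3, h4, h5, h6⟩
  · exact Or.inl ⟨h.symm, hb⟩
  · exact Or.inr (Or.inl ⟨h.symm, hb⟩)
  · exact Or.inr (Or.inr ⟨Q, h1, h2, h3, h5, h4, by rw [h6, Bool.xor_comm]⟩)

theorem cy3_tch {G : SimpleGraph V} {x u u' : V} {Q : Set V} (hc : Comp G x u u')
    (h : Tch G x Q u) : Tch G x Q u' := by
  obtain ⟨p, hp, hpa⟩ := h
  exact ⟨p, hp, by rw [← Att.congr hc]; exact hpa⟩

theorem cy3_congr {G : SimpleGraph V} {Dθ : Set V → V → ℕ} {Dσ : Set V → V → Bool}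
    {Dt : Set V → V → V → Bool} (hD : Dat G Dθ Dσ Dt) {x u u' v : V} {b : Bool}
    (h : Es G Dt x u v b) (hc : Comp G x u u') : Es G Dt x u' v b := by
  obtain ⟨hu, hv, h⟩ := h
  refine ⟨hc.right, hv, ?_⟩
  rcases h with ⟨h, hb⟩ | ⟨h, hb⟩ | ⟨Q, h1, h2, h3, h4, h5, h6⟩
  · exact Or.inl ⟨hc.symm.trans h, hb⟩
  · exact Or.inr (Or.inl ⟨h.congr hc (Comp.refl hv), hb⟩)
  · refine Or.inr (Or.inr ⟨Q, h1, h2, h3, cy3_tch hc h4, h5, ?_⟩)
    rw [h6, ((hD Q h1).2 x h3).1.1 u u' hc]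

/-- signs are unique -/
theorem cy3_uniq {G : SimpleGraph V} {Dt : Set V → V → V → Bool} {x : V}
    (hS : ∀ u v, ¬ (Es G Dt x u v true ∧ Es G Dt x u v false) ∧ ¬ Es G Dt x u u true)
    {u v : V} {b b' : Bool} (h : Es G Dt x u v b) (h' : Es G Dt x u v b') : b = b' := by
  cases b <;> cases b'
  · rfl
  · exact absurd ⟨h', h⟩ (hS u v).1
  · exact absurd ⟨h, h'⟩ (hS u v).1
  · rfl

/-- the sign of two vertices of one component is `false` -/
theorem cy3_same {G : SimpleGraph V} {Dθ : Set V → V → ℕ} {Dσ : Set V → V → Bool}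
    {Dt : Set V → V → V → Bool} (hD : Dat G Dθ Dσ Dt) {x : V}
    (hS : ∀ u v, ¬ (Es G Dt x u v true ∧ Es G Dt x u v false) ∧ ¬ Es G Dt x u u true)
    {u v : V} {b : Bool} (h : Es G Dt x u v b) (hc : Comp G x u v) : b = false := by
  cases b
  · rfl
  · exact absurd (cy3_congr hD h hc) (hS v v).2

/-- two of three vertices in the same component -/
theorem cy3_comp {G : SimpleGraph V} {Dθ : Set V → V → ℕ} {Dσ : Set V → V → Bool}
    {Dt : Set V → V → V → Bool} (hD : Dat G Dθ Dσ Dt) {x : V}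
    (hS : ∀ u v, ¬ (Es G Dt x u v true ∧ Es G Dt x u v false) ∧ ¬ Es G Dt x u u true)
    {y1 y2 y3 : V} {b1 b2 b3 : Bool} (h1 : Es G Dt x y1 y2 b1) (h2 : Es G Dt x y2 y3 b2)
    (h3 : Es G Dt x y3 y1 b3) (hx : xor (xor b1 b2) b3 = true) : ¬ Comp G x y1 y2 := by
  intro hc
  have e1 := cy3_same hD hS h1 hc
  have e2 : b2 = b3 := cy3_uniq hS (cy3_congr hD h2 hc.symm) (cy3_symm h3)
  subst e1
  subst e2
  revert hx
  cases b2 <;> simp

/-- the sign of a pair that is conflicting or touches `Q` -/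
theorem cy3_sgn {G : SimpleGraph V} {Dθ : Set V → V → ℕ} {Dσ : Set V → V → Bool}
    {Dt : Set V → V → V → Bool} (hD : Dat G Dθ Dσ Dt) {x : V}
    (hS : ∀ u v, ¬ (Es G Dt x u v true ∧ Es G Dt x u v false) ∧ ¬ Es G Dt x u u true)
    {u v : V} {b : Bool} (h : Es G Dt x u v b) {Q : Set V} (hQ : MaxC G Q) (hx : x ∈ Q)
    (hc : Conf G x u v ∨ (Big Q ∧ Tch G x Q u ∧ Tch G x Q v)) :
    b = xor (Dt Q x u) (Dt Q x v) := by
  rcases hc with hc | ⟨hB, hu, hv⟩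
  · have e1 : Es G Dt x u v true := ⟨hc.far.1, hc.far.2, Or.inr (Or.inl ⟨hc, rfl⟩)⟩
    have e2 := cy3_uniq hS h e1
    have e3 := ((hD Q hQ).2 x hx).1.2 u v hc
    rw [e2]
    revert e3
    cases Dt Q x u <;> cases Dt Q x v <;> simp
  · exact cy3_uniq hS h ⟨h.1, h.2.1, Or.inr (Or.inr ⟨Q, hQ, hB, hx, hu, hv, rfl⟩)⟩

/-- all three pairs are conflicting or touch `Q` -/
theorem cy3_one {G : SimpleGraph V} {Dθ : Set V → V → ℕ} {Dσ : Set V → V → Bool}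
    {Dt : Set V → V → V → Bool} (hD : Dat G Dθ Dσ Dt) {x : V}
    (hS : ∀ u v, ¬ (Es G Dt x u v true ∧ Es G Dt x u v false) ∧ ¬ Es G Dt x u u true)
    {y1 y2 y3 : V} {b1 b2 b3 : Bool} (h1 : Es G Dt x y1 y2 b1) (h2 : Es G Dt x y2 y3 b2)
    (h3 : Es G Dt x y3 y1 b3) (hx : xor (xor b1 b2) b3 = true) {Q : Set V} (hQ : MaxC G Q)
    (hxQ : x ∈ Q) (c1 : Conf G x y1 y2 ∨ (Big Q ∧ Tch G x Q y1 ∧ Tch G x Q y2))
    (c2 : Conf G x y2 y3 ∨ (Big Q ∧ Tch G x Q y2 ∧ Tch G x Q y3))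
    (c3 : Conf G x y3 y1 ∨ (Big Q ∧ Tch G x Q y3 ∧ Tch G x Q y1)) : False := by
  rw [cy3_sgn hD hS h1 hQ hxQ c1, cy3_sgn hD hS h2 hQ hxQ c2, cy3_sgn hD hS h3 hQ hxQ c3] at hx
  revert hx
  cases Dt Q x y1 <;> cases Dt Q x y2 <;> cases Dt Q x y3 <;> simp

/-- two maximal cliques through `x` meet only in `x`, and there are no edges between them -/
theorem cy3_sep {G : SimpleGraph V} (h : DF G) {x a b : V} {Q Q' : Set V} (hQ : MaxC G Q)
    (hQ' : MaxC G Q') (hx : x ∈ Q) (hx' : x ∈ Q') (ha : a ∈ Q) (hb : b ∈ Q') (hxa : G.Adj x a)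
    (hxb : G.Adj x b) (hne : Q ≠ Q') : a ≠ b ∧ ¬ G.Adj a b := by
  have key : ∀ (P P' : Set V), MaxC G P → MaxC G P' → x ∈ P → x ∈ P' → ∀ c, c ∈ P → c ∈ P' →
      G.Adj x c → P ⊆ P' := by
    intro P P' hP hP' hxP hxP' c hc hc' hxc z hz
    by_cases e1 : z = x
    · rw [e1]; exact hxP'
    by_cases e2 : z = c
    · rw [e2]; exact hc'
    refine hP'.2 z ?_
    intro q hq hqz
    by_cases e3 : q = x
    · rw [e3]; exact hP.1 z hz x hxP e1
    by_cases e4 : q = c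
    · rw [e4]; exact hP.1 z hz c hc e2
    exact h x c z q hxc (hP.1 x hxP z hz (fun e => e1 e.symm)) (hP.1 c hc z hz (fun e => e2 e.symm))
      (hP'.1 x hxP' q hq (fun e => e3 e.symm)) (hP'.1 c hc' q hq (fun e => e4 e.symm))
      (fun e => hqz e.symm)
  have key2 : ∀ c, c ∈ Q → c ∈ Q' → G.Adj x c → False := fun c hc hc' hxc =>
    hne (Set.Subset.antisymm (key Q Q' hQ hQ' hx hx' c hc hc' hxc)
      (key Q' Q hQ' hQ hx' hx c hc' hc hxc))
  constructor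
  · intro e
    exact key2 a ha (e ▸ hb) hxa
  · intro hab
    refine key2 b ?_ hb hxb
    refine hQ.2 b ?_
    intro q hq hqb
    by_cases e1 : q = x
    · rw [e1]; exact hxb.symm
    by_cases e2 : q = a
    · rw [e2]; exact hab.symm
    exact (h x a q b hxa (hQ.1 x hx q hq (fun e => e1 e.symm))
      (hQ.1 a ha q hq (fun e => e2 e.symm)) hxb hab hqb).symm

/-- an asteroidal triple from three maximal cliques through `x` -/
theorem cy3_ci (hL : ST_LNK) {G : SimpleGraph V} (h : DF G) (hCI : CI G) {x u v w : V}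
    {Q1 Q2 Q3 : Set V} (hQ1 : MaxC G Q1) (hQ2 : MaxC G Q2) (hQ3 : MaxC G Q3) (hx1 : x ∈ Q1)
    (hx2 : x ∈ Q2) (hx3 : x ∈ Q3) (hu : u ∈ Far G x) (hv : v ∈ Far G x) (hw : w ∈ Far G x)
    (u1 : Tch G x Q1 u) (u2 : Tch G x Q2 u) (u3 : ¬ Tch G x Q3 u)
    (v2 : Tch G x Q2 v) (v3 : Tch G x Q3 v) (v1 : ¬ Tch G x Q1 v)
    (w3 : Tch G x Q3 w) (w1 : Tch G x Q1 w) (w2 : ¬ Tch G x Q2 w) : False := by
  have n12 : Q1 ≠ Q2 := fun e => v1 (e ▸ v2)
  have n13 : Q1 ≠ Q3 := fun e => v1 (e ▸ v3)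
  have n23 : Q2 ≠ Q3 := fun e => u3 (e ▸ u2)
  obtain ⟨a, ha, haw⟩ := w1
  obtain ⟨b, hb, hbu⟩ := u2
  obtain ⟨c, hc, hcv⟩ := v3
  obtain ⟨a', ha', hau'⟩ := u1
  obtain ⟨b', hb', hbv'⟩ := v2
  obtain ⟨c', hc', hcw'⟩ := w3
  have hxa : G.Adj x a := haw.1
  have hxb : G.Adj x b := hbu.1
  have hxc : G.Adj x c := hcv.1
  obtain ⟨ab1, ab2⟩ := cy3_sep h hQ1 hQ2 hx1 hx2 ha hb hxa hxb n12
  obtain ⟨ac1, ac2⟩ := cy3_sep h hQ1 hQ3 hx1 hx3 ha hc hxa hxc n13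
  obtain ⟨bc1, bc2⟩ := cy3_sep h hQ2 hQ3 hx2 hx3 hb hc hxb hxc n23
  have eqadj : ∀ (Q : Set V), MaxC G Q → ∀ p ∈ Q, ∀ q ∈ Q, p = q ∨ G.Adj p q := by
    intro Q hQ p hp q hq
    by_cases e : p = q
    · exact Or.inl e
    · exact Or.inr (hQ.1 p hp q hq e)
  have cab : Comp G c a b := hL V G h x u a b c a' b hu hau' hbu (eqadj Q1 hQ1 a ha a' ha')
    (Or.inl rfl) hxa hxb hxc (fun e => ac1 e.symm) (fun e => bc1 e.symm) (fun e => ac2 e.symm)
    (fun e => bc2 e.symm) (fun e => u3 ⟨c, hc, e⟩)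
  have abc : Comp G a b c := hL V G h x v b c a b' c hv hbv' hcv (eqadj Q2 hQ2 b hb b' hb')
    (Or.inl rfl) hxb hxc hxa ab1 ac1 ab2 ac2 (fun e => v1 ⟨a, ha, e⟩)
  have bac : Comp G b a c := hL V G h x w a c b a c' hw haw hcw' (Or.inl rfl)
    (eqadj Q3 hQ3 c hc c' hc') hxa hxc hxb (fun e => ab1 e.symm) bc1 (fun e => ab2 e.symm) bc2
    (fun e => w2 ⟨b, hb, e⟩)
  exact hCI ⟨x, a, b, c, hxa, hxb, hxc, cab, abc, bac⟩

/-- a lower component: some vertex of the upper one is complete to its attachments -/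
theorem cy3_full {G : SimpleGraph V} {x u v : V} (h : Le G x u v) :
    ∃ w, Comp G x v w ∧ ∀ n ∈ Att G x u, G.Adj w n := by
  obtain ⟨⟨n, hn1, hn2⟩, hm⟩ := h
  obtain ⟨w, hw, hnw⟩ := hn2.2
  refine ⟨w, hw, ?_⟩
  intro k hk
  by_contra hc
  exact hm w hw ⟨⟨n, hn1, hnw.symm⟩, k, hk, hc⟩

theorem cy3_sub {G : SimpleGraph V} {x u v : V} (h : Le G x u v) : Att G x u ⊆ Att G x v := by
  obtain ⟨w, hw, hf⟩ := cy3_full h
  intro n hn
  exact ⟨hn.1, w, hw, (hf n hn).symm⟩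

/-- a lower component has an attachment in a big clique that it does not cover -/
theorem cy3_pq {G : SimpleGraph V} (hDF : DF G) {x u v : V} {Q : Set V} (hQ : MaxC G Q)
    (hB : Big Q) (hx : x ∈ Q) (hT : Tch G x Q u) (h : Le G x u v) :
    ∃ p q, p ∈ Att G x u ∧ G.Adj x q ∧ G.Adj p q ∧ q ∉ Att G x u := by
  obtain ⟨w, hw, hf⟩ := cy3_full h
  obtain ⟨p, hp, hpu⟩ := hT
  obtain ⟨q, hq, hqx, hqp⟩ := hB x p
  have hxq : G.Adj x q := hQ.1 x hx q hq (fun e => hqx e.symm)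
  have hpq : G.Adj p q := hQ.1 p hp q hq (fun e => hqp e.symm)
  exact ⟨p, q, hpu, hxq, hpq, fun hqu =>
    hDF.far hpu.1 hxq hpq hw.right (hf p hpu) (hf q hqu)⟩

/-- not conflicting components with a common attachment are comparable -/
theorem cy3_tot {G : SimpleGraph V} {x u v n : V} (hn : n ∈ Att G x u) (hn' : n ∈ Att G x v)
    (hc : ¬ Comp G x u v) (hf : ¬ Conf G x u v) : Le G x u v ∨ Le G x v u := by
  by_cases h : ∃ w, Comp G x v w ∧ Mixed G w (Att G x u)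
  · right
    refine ⟨⟨n, hn', hn⟩, ?_⟩
    intro w hw hm
    exact hf ⟨hc, ⟨w, hw, hm⟩, h⟩
  · left
    exact ⟨⟨n, hn, hn'⟩, fun w hw hm => h ⟨w, hw, hm⟩⟩

/-- every vertex has a proper colouring -/
theorem cy3_prop {G : SimpleGraph V} (hDF : DF G) {Dθ : Set V → V → ℕ} {Dσ : Set V → V → Bool}
    {Dt : Set V → V → V → Bool} (hD : Dat G Dθ Dσ Dt) : ∀ z, ∃ s, PropC G z s := by
  intro z
  by_cases h : ∃ p, G.Adj z p
  · obtain ⟨p, hp⟩ := h
    exact ⟨_, ((hD _ (exists_MaxC hDF hp)).2 z (Or.inl rfl)).1⟩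
  · have hM : MaxC G {z} := by
      constructor
      · rintro a rfl b rfl hab
        exact absurd rfl hab
      · intro w hw
        by_contra hc
        exact h ⟨w, (hw z rfl (fun e => hc (e ▸ rfl))).symm⟩
    exact ⟨_, ((hD _ hM).2 z rfl).1⟩

theorem cy3_core (h3 : ST_LNK) (h4 : ST_LMX) {G : SimpleGraph V} (hDF : DF G)
    (hP : Prime G) (hCI : CI G) {Dθ : Set V → V → ℕ} {Dσ : Set V → V → Bool}
    {Dt : Set V → V → V → Bool} (hD : Dat G Dθ Dσ Dt) {x : V}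
    (hS : ∀ u v, ¬ (Es G Dt x u v true ∧ Es G Dt x u v false) ∧ ¬ Es G Dt x u u true)
    {y1 y2 y3 : V} {b1 b2 b3 : Bool} (e1 : Es G Dt x y1 y2 b1) (e2 : Es G Dt x y2 y3 b2)
    (e3 : Es G Dt x y3 y1 b3) (hx : xor (xor b1 b2) b3 = true)
    (c1 : ¬ Comp G x y1 y2) (c2 : ¬ Comp G x y2 y3) (c3 : ¬ Comp G x y3 y1)
    (f1 : ¬ Conf G x y1 y2) (f2 : ¬ Conf G x y2 y3) {Q : Set V} (hQ : MaxC G Q) (hB : Big Q)
    (hxQ : x ∈ Q) (t1 : Tch G x Q y1) (t2 : Tch G x Q y2) (t3 : ¬ Tch G x Q y3) : False := by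
  have hall : ∀ (R : Set V), MaxC G R → Big R → x ∈ R → Tch G x R y1 → Tch G x R y2 →
      Tch G x R y3 → False := fun R r1 r2 r3 r4 r5 r6 =>
    cy3_one hD hS e1 e2 e3 hx r1 r3 (Or.inr ⟨r2, r4, r5⟩) (Or.inr ⟨r2, r5, r6⟩)
      (Or.inr ⟨r2, r6, r4⟩)
  rcases e2.2.2 with ⟨h, _⟩ | ⟨h, _⟩ | ⟨Q', q1, q2, q3, q4, q5, q6⟩
  · exact c2 h
  · exact f2 h
  have t1' : ¬ Tch G x Q' y1 := fun h => hall Q' q1 q2 q3 h q4 q5
  rcases e3.2.2 with ⟨h, _⟩ | ⟨h, _⟩ | ⟨R, r1, r2, r3, r4, r5, r6⟩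
  · exact c3 h
  · have hf : Conf G x y1 y3 := h.symm
    obtain ⟨u, hu, ⟨m, hm3, hum⟩, _⟩ := hf.2.1
    have hm1 : m ∈ Att G x y1 := ⟨hm3.1, u, hu, hum.symm⟩
    have hxm : G.Adj x m := hm1.1
    have hR := exists_MaxC hDF hxm
    have hxR : x ∈ {u | u = x ∨ u = m ∨ (G.Adj x u ∧ G.Adj m u)} := Or.inl rfl
    have hmR : m ∈ {u | u = x ∨ u = m ∨ (G.Adj x u ∧ G.Adj m u)} := Or.inr (Or.inl rfl)
    generalize {u | u = x ∨ u = m ∨ (G.Adj x u ∧ G.Adj m u)} = R at hR hxR hmR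
    by_cases hT : Tch G x R y2
    · by_cases hRB : Big R
      · exact hall R hR hRB hxR ⟨m, hmR, hm1⟩ hT ⟨m, hmR, hm3⟩
      · have hm2 : m ∈ Att G x y2 := by
          unfold Big at hRB
          push Not at hRB
          obtain ⟨p, q, hpq⟩ := hRB
          obtain ⟨k, hk, hk2⟩ := hT
          have hxk : G.Adj x k := hk2.1
          have a1 : ∀ z ∈ R, z = p ∨ z = q := fun z hz => by
            by_cases e : z = p
            · exact Or.inl e
            · exact Or.inr (hpq z hz e)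
          have hkm : k = m := by
            rcases a1 x hxR with g1 | g1 <;> rcases a1 m hmR with g2 | g2 <;>
              rcases a1 k hk with g3 | g3
            · exact g3.trans g2.symm
            · exact absurd (g1.trans g2.symm) hxm.ne
            · exact absurd (g1.trans g3.symm) hxk.ne
            · exact g3.trans g2.symm
            · exact g3.trans g2.symm
            · exact absurd (g1.trans g3.symm) hxk.ne
            · exact absurd (g1.trans g2.symm) hxm.ne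
            · exact g3.trans g2.symm
          rw [← hkm]
          exact hk2
        have l1 : Le G x y1 y2 := by
          rcases cy3_tot hm1 hm2 c1 f1 with g | g
          · exact g
          · obtain ⟨p, hp, hp2⟩ := q4
            exact absurd ⟨p, hp, cy3_sub g hp2⟩ t1'
        have l3 : Le G x y3 y2 := by
          rcases cy3_tot hm2 hm3 c2 f2 with g | g
          · obtain ⟨p, hp, hp2⟩ := t2
            exact absurd ⟨p, hp, cy3_sub g hp2⟩ t3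
          · exact g
        have hPr := ((hD Q hQ).2 x hxQ).1
        have key := h4 V G hDF hP (cy3_prop hDF hD) x y2 (Dt Q x) hPr e2.1 1
          (fun i => if i = 0 then y1 else y3) le_rfl
          (by
            intro i hi
            have : i = 0 := by omega
            subst this
            simpa using hf)
          (by
            intro i hi
            by_cases e : i = 0
            · simpa [e] using l1
            · simpa [e] using l3)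
          (by
            intro i hi
            by_cases e : i = 0
            · simpa [e] using c1
            · simpa [e] using fun h => c2 h.symm)
          (by simpa using cy3_pq hDF hQ hB hxQ t1 l1)
          (by simpa using cy3_pq hDF q1 q2 q3 q5 l3)
        exact hPr.2 y1 y3 hf (by simpa using key)
    · exact cy3_ci h3 hDF hCI hQ q1 hR hxQ q3 hxR e2.1 e2.2.1 e1.1 t2 q4 hT q5 ⟨m, hmR, hm3⟩ t3
        ⟨m, hmR, hm1⟩ t1 t1'
  · have t2' : ¬ Tch G x R y2 := fun h => hall R r1 r2 r3 r5 h r4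
    exact cy3_ci h3 hDF hCI hQ q1 r1 hxQ q3 r3 e2.1 e2.2.1 e1.1 t2 q4 t2' q5 r4 t3 r5 t1 t1'

theorem cy3_mid (h3 : ST_LNK) (h4 : ST_LMX) {G : SimpleGraph V} (hDF : DF G)
    (hP : Prime G) (hCI : CI G) {Dθ : Set V → V → ℕ} {Dσ : Set V → V → Bool}
    {Dt : Set V → V → V → Bool} (hD : Dat G Dθ Dσ Dt) {x : V}
    (hS : ∀ u v, ¬ (Es G Dt x u v true ∧ Es G Dt x u v false) ∧ ¬ Es G Dt x u u true)
    {y1 y2 y3 : V} {b1 b2 b3 : Bool} (e1 : Es G Dt x y1 y2 b1) (e2 : Es G Dt x y2 y3 b2)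
    (e3 : Es G Dt x y3 y1 b3) (hx : xor (xor b1 b2) b3 = true) (f1 : ¬ Conf G x y1 y2) :
    False := by
  have x2 : xor (xor b2 b3) b1 = true := by
    revert hx
    cases b1 <;> cases b2 <;> cases b3 <;> simp
  have x3 : xor (xor b3 b1) b2 = true := by
    revert hx
    cases b1 <;> cases b2 <;> cases b3 <;> simp
  have x4 : xor (xor b1 b3) b2 = true := by
    revert hx
    cases b1 <;> cases b2 <;> cases b3 <;> simp
  have c1 : ¬ Comp G x y1 y2 := cy3_comp hD hS e1 e2 e3 hx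
  have c2 : ¬ Comp G x y2 y3 := cy3_comp hD hS e2 e3 e1 x2
  have c3 : ¬ Comp G x y3 y1 := cy3_comp hD hS e3 e1 e2 x3
  rcases e1.2.2 with ⟨h, _⟩ | ⟨h, _⟩ | ⟨Q, q1, q2, q3, q4, q5, q6⟩
  · exact c1 h
  · exact f1 h
  by_cases t3 : Tch G x Q y3
  · exact cy3_one hD hS e1 e2 e3 hx q1 q3 (Or.inr ⟨q2, q4, q5⟩) (Or.inr ⟨q2, q5, t3⟩)
      (Or.inr ⟨q2, t3, q4⟩)
  by_cases f2 : Conf G x y2 y3
  · by_cases f3 : Conf G x y3 y1
    · exact cy3_one hD hS e1 e2 e3 hx q1 q3 (Or.inr ⟨q2, q4, q5⟩) (Or.inl f2) (Or.inl f3)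
    · exact cy3_core h3 h4 hDF hP hCI hD hS (cy3_symm e1) (cy3_symm e3) (cy3_symm e2) x4
        (fun h => c1 h.symm) (fun h => c3 h.symm) (fun h => c2 h.symm) (fun h => f1 h.symm)
        (fun h => f3 h.symm) q1 q2 q3 q5 q4 t3
  · exact cy3_core h3 h4 hDF hP hCI hD hS e1 e2 e3 hx c1 c2 c3 f1 f2 q1 q2 q3 q4 q5 t3

theorem st_CY3 (h1 : ST_SGN) (_ : ST_HRQ) (h3 : ST_LNK) (h4 : ST_LMX) : ST_CY3 := by
  intro V G hDF hP hCI Dθ Dσ Dt hD x y0 y1 y2 b0 b1 b2 e0 e1 e2 hx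
  have hS := h1 V G hDF hP Dθ Dσ Dt hD x
  have x2 : xor (xor b1 b2) b0 = true := by
    revert hx
    cases b0 <;> cases b1 <;> cases b2 <;> simp
  have x3 : xor (xor b2 b0) b1 = true := by
    revert hx
    cases b0 <;> cases b1 <;> cases b2 <;> simp
  by_cases f0 : Conf G x y0 y1
  · by_cases f1 : Conf G x y1 y2
    · by_cases f2 : Conf G x y2 y0
      · obtain ⟨u, hu, ⟨m, hm, hum⟩, _⟩ := f0.2.1
        exact cy3_one hD hS e0 e1 e2 hx (exists_MaxC hDF hm.1) (Or.inl rfl) (Or.inl f0)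
          (Or.inl f1) (Or.inl f2)
      · exact cy3_mid h3 h4 hDF hP hCI hD hS e2 e0 e1 x3 f2
    · exact cy3_mid h3 h4 hDF hP hCI hD hS e1 e2 e0 x2 f1
  · exact cy3_mid h3 h4 hDF hP hCI hD hS e0 e1 e2 hx f0

end Pool.Agent.Helper64.DT
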